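import Mathlib

/-!
# Zero sets of holomorphic functions on a spherical hat of the unit ball of `ℂ²`
-/

set_option autoImplicit false

open Set Filter Topology

namespace Pool.Agent.Q110.Nuc

/-- the spherical cap `Re z₁ ≥ r` of the unit sphere of `ℂⁿ` -/
def cap (n : ℕ) [NeZero n] (r : ℝ) : Set (EuclideanSpace ℂ (Fin n)) :=
  {z | ‖z‖ = 1 ∧ r ≤ (z 0).re}

/-- the spherical hat `Re z₁ ≥ r` of the closed unit ball of `ℂⁿ` -/
def hat (n : ℕ) [NeZero n] (r : ℝ) : Set (EuclideanSpace ℂ (Fin n)) :=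
  {z | ‖z‖ ≤ 1 ∧ r ≤ (z 0).re}

abbrev E2 := EuclideanSpace ℂ (Fin 2)

/-- point of `ℂ²` with given coordinates -/
noncomputable def P (c w : ℂ) : E2 := WithLp.toLp 2 ![c, w]

theorem P_zero (c w : ℂ) : (P c w) 0 = c := rfl
theorem P_one (c w : ℂ) : (P c w) 1 = w := rfl

theorem P_norm (c w : ℂ) : ‖P c w‖ ^ 2 = ‖c‖ ^ 2 + ‖w‖ ^ 2 := by
  rw [EuclideanSpace.norm_sq_eq, Fin.sum_univ_two, P_zero, P_one]

theorem P_eta (z : E2) : P (z 0) (z 1) = z := by
  ext i
  fin_cases i <;> rfl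

theorem P_continuous : Continuous (fun p : ℂ × ℂ => P p.1 p.2) := by
  unfold P
  refine (PiLp.continuous_toLp 2 _).comp ?_
  refine continuous_pi fun i => ?_
  fin_cases i
  · exact continuous_fst
  · exact continuous_snd

theorem P_differentiable (c : ℂ) : Differentiable ℂ (fun w => P c w) := by
  rw [differentiable_euclidean]
  intro i
  fin_cases i
  · exact differentiable_const c
  · exact differentiable_id

theorem hat_compact (r : ℝ) : IsCompact (hat 2 r) := by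
  have h1 : hat 2 r = Metric.closedBall (0 : E2) 1 ∩ {z | r ≤ (z 0).re} := by
    ext z; simp [hat]
  rw [h1]
  refine (isCompact_closedBall _ _).inter_right ?_
  exact isClosed_le continuous_const (Complex.continuous_re.comp (EuclideanSpace.proj (0 : Fin 2)).continuous)

/-- local dichotomy -/
theorem local_open (r : ℝ) (Z : Set E2) (c0 : ℂ) (hr : r ≤ c0.re)
    (hmax : ∀ z ∈ Z ∩ hat 2 r, (z 0).re ≤ c0.re)
    (hloc : ∀ p ∈ Z ∩ hat 2 r, ∃ (O : Set E2) (f : E2 → ℂ), IsOpen O ∧ p ∈ O ∧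
      DifferentiableOn ℂ f O ∧ ∀ z ∈ O, (z ∈ Z ↔ f z = 0))
    (w : ℂ) (hw : ‖P c0 w‖ < 1) (hwZ : P c0 w ∈ Z) : ∀ᶠ w' in 𝓝 w, P c0 w' ∈ Z := by
  obtain ⟨O, f, hO, hpO, hf, hfZ⟩ := hloc (P c0 w) ⟨hwZ, hw.le, hr⟩
  have hPc : Continuous (fun w' => P c0 w') := P_continuous.comp (continuous_const.prodMk continuous_id)
  have hOw : ∀ᶠ w' in 𝓝 w, P c0 w' ∈ O := hPc.continuousAt (hO.mem_nhds hpO)
  have hnorm : ∀ᶠ w' in 𝓝 w, ‖P c0 w'‖ < 1 := hPc.norm.continuousAt (gt_mem_nhds hw)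
  have han : AnalyticAt ℂ (fun w' => f (P c0 w')) w := by
    have hopen : IsOpen ((fun w' => P c0 w') ⁻¹' O) := hO.preimage hPc
    have hd : DifferentiableOn ℂ (fun w' => f (P c0 w')) ((fun w' => P c0 w') ⁻¹' O) :=
      hf.comp (P_differentiable c0).differentiableOn (fun x hx => hx)
    exact hd.analyticAt (hopen.mem_nhds hpO)
  rcases han.eventually_eq_zero_or_eventually_ne_zero with h0 | hne
  · filter_upwards [h0, hOw] with w' h1 h2
    exact (hfZ _ h2).2 h1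
  exfalso
  rw [eventually_nhdsWithin_iff] at hne
  obtain ⟨η, hη, hball⟩ := Metric.eventually_nhds_iff_ball.1 (hne.and (hOw.and hnorm))
  have hη2 : 0 < η / 2 := by positivity
  have hsub : Metric.closedBall w (η / 2) ⊆ Metric.ball w η :=
    Metric.closedBall_subset_ball (by linarith)
  have hsne : (Metric.sphere w (η / 2)).Nonempty := NormedSpace.sphere_nonempty.2 hη2.le
  have hcont : ContinuousOn (fun w' => ‖f (P c0 w')‖) (Metric.closedBall w (η / 2)) := by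
    refine ContinuousOn.norm ?_
    exact hf.continuousOn.comp hPc.continuousOn (fun w' hw' => (hball w' (hsub hw')).2.1)
  obtain ⟨ws, hws, hmin⟩ := (isCompact_sphere w (η / 2)).exists_isMinOn hsne
    (hcont.mono Metric.sphere_subset_closedBall)
  set m := ‖f (P c0 ws)‖ with hm
  have hm0 : 0 < m := by
    refine norm_pos_iff.2 ((hball ws (hsub (Metric.sphere_subset_closedBall hws))).1 ?_)
    intro h
    rw [mem_singleton_iff] at h
    rw [h, mem_sphere_iff_norm, sub_self, norm_zero] at hws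
    linarith
  -- uniform closeness for `c` near `c0`
  have hunif : ∀ᶠ c in 𝓝 c0, ∀ w' ∈ Metric.closedBall w (η / 2),
      P c w' ∈ O ∧ ‖P c w'‖ < 1 ∧ ‖f (P c w') - f (P c0 w')‖ < m / 2 := by
    refine (isCompact_closedBall w (η / 2)).eventually_forall_of_forall_eventually fun w' hw' => ?_
    have h1 : P c0 w' ∈ O := (hball w' (hsub hw')).2.1
    have h2 : ‖P c0 w'‖ < 1 := (hball w' (hsub hw')).2.2
    have hPP : ContinuousAt (fun p : ℂ × ℂ => P p.1 p.2) (c0, w') := P_continuous.continuousAt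
    have e1 : ∀ᶠ p : ℂ × ℂ in 𝓝 (c0, w'), P p.1 p.2 ∈ O := hPP (hO.mem_nhds h1)
    have e2 : ∀ᶠ p : ℂ × ℂ in 𝓝 (c0, w'), ‖P p.1 p.2‖ < 1 := hPP.norm (gt_mem_nhds h2)
    have hfc : ContinuousAt f (P c0 w') := (hf.continuousOn).continuousAt (hO.mem_nhds h1)
    have hPP0 : ContinuousAt (fun p : ℂ × ℂ => P c0 p.2) (c0, w') :=
      (hPc.comp continuous_snd).continuousAt
    have e3 : ∀ᶠ p : ℂ × ℂ in 𝓝 (c0, w'), ‖f (P p.1 p.2) - f (P c0 p.2)‖ < m / 2 := by
      have hc1 : ContinuousAt (fun p : ℂ × ℂ => f (P p.1 p.2)) (c0, w') :=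
        ContinuousAt.comp (g := f) (f := fun p : ℂ × ℂ => P p.1 p.2) hfc hPP
      have hc2 : ContinuousAt (fun p : ℂ × ℂ => f (P c0 p.2)) (c0, w') :=
        ContinuousAt.comp (g := f) (f := fun p : ℂ × ℂ => P c0 p.2) hfc hPP0
      refine (hc1.sub hc2).norm (gt_mem_nhds ?_)
      show ‖f (P c0 w') - f (P c0 w')‖ < m / 2
      rw [sub_self, norm_zero]; positivity
    filter_upwards [e1, e2, e3] with p h1 h2 h3
    exact ⟨h1, h2, h3⟩
  obtain ⟨ε, hε, hball2⟩ := Metric.eventually_nhds_iff_ball.1 hunif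
  set c : ℂ := c0 + ((ε / 2 : ℝ) : ℂ) with hc
  have hcball : c ∈ Metric.ball c0 ε := by
    rw [mem_ball_iff_norm, hc, add_sub_cancel_left, Complex.norm_real, Real.norm_eq_abs,
      abs_of_pos (by positivity)]
    linarith
  have hcre : c0.re < c.re := by
    rw [hc, Complex.add_re, Complex.ofReal_re]; linarith
  have hno : ∀ w' ∈ Metric.closedBall w (η / 2), f (P c w') ≠ 0 := by
    intro w' hw' h
    obtain ⟨h1, h2, -⟩ := hball2 c hcball w' hw'
    have h3 : P c w' ∈ Z ∩ hat 2 r := ⟨(hfZ _ h1).2 h, h2.le, by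
      show r ≤ c.re
      linarith⟩
    have h4 := hmax _ h3
    rw [P_zero] at h4
    linarith
  have hPcc : Continuous (fun w' => P c w') := P_continuous.comp (continuous_const.prodMk continuous_id)
  have hDC : DiffContOnCl ℂ (fun w' => (f (P c w'))⁻¹) (Metric.ball w (η / 2)) := by
    have hd : DifferentiableOn ℂ (fun w' => (f (P c w'))⁻¹) (Metric.closedBall w (η / 2)) := by
      intro w' hw'
      have h1 := (hball2 c hcball w' hw').1
      have h2 : DifferentiableAt ℂ f (P c w') := hf.differentiableAt (hO.mem_nhds h1)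
      have h3 : DifferentiableAt ℂ (fun w' => f (P c w')) w' :=
        DifferentiableAt.comp (g := f) (f := fun w' => P c w') w' h2 (P_differentiable c w')
      exact (h3.inv (hno w' hw')).differentiableWithinAt
    refine DifferentiableOn.diffContOnCl ?_
    rwa [closure_ball w hη2.ne']
  have hfront : ∀ z ∈ frontier (Metric.ball w (η / 2)), ‖(f (P c z))⁻¹‖ ≤ 2 / m := by
    intro z hz
    rw [frontier_ball w hη2.ne'] at hz
    have h1 : m ≤ ‖f (P c0 z)‖ := hmin hz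
    have h2 := (hball2 c hcball z (Metric.sphere_subset_closedBall hz)).2.2
    have h3 : m / 2 ≤ ‖f (P c z)‖ := by
      have h4 : ‖f (P c0 z)‖ ≤ ‖f (P c z)‖ + ‖f (P c z) - f (P c0 z)‖ := by
        have := norm_sub_le (f (P c z)) (f (P c z) - f (P c0 z))
        rwa [sub_sub_cancel] at this
      linarith
    rw [norm_inv, inv_le_comm₀ (by linarith) (by positivity)]
    rwa [inv_div]
  have hmm := Complex.norm_le_of_forall_mem_frontier_norm_le Metric.isBounded_ball hDC hfront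
    (subset_closure (Metric.mem_ball_self hη2))
  have hcen := (hball2 c hcball w (Metric.mem_closedBall_self hη2.le)).2.2
  have hf0 : f (P c0 w) = 0 := (hfZ _ hpO).1 hwZ
  rw [hf0, sub_zero] at hcen
  have hpos : 0 < ‖f (P c w)‖ := norm_pos_iff.2 (hno w (Metric.mem_closedBall_self hη2.le))
  rw [norm_inv, inv_le_comm₀ hpos (by positivity), inv_div] at hmm
  linarith

/-- A closed set which is locally the zero set of a holomorphic function and does not meet the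
spherical part of the boundary of the hat does not meet the hat. -/
theorem cut_lemma (r : ℝ) (Z : Set E2) (hcl : IsClosed (Z ∩ hat 2 r))
    (hloc : ∀ p ∈ Z ∩ hat 2 r, ∃ (O : Set E2) (f : E2 → ℂ), IsOpen O ∧ p ∈ O ∧
      DifferentiableOn ℂ f O ∧ ∀ z ∈ O, (z ∈ Z ↔ f z = 0))
    (hcap : Z ∩ cap 2 r = ∅) : Z ∩ hat 2 r = ∅ := by
  by_contra hne
  rw [← ne_eq, ← nonempty_iff_ne_empty] at hne
  have hK : IsCompact (Z ∩ hat 2 r) := (hat_compact r).of_isClosed_subset hcl inter_subset_right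
  obtain ⟨p, hp, hpmax⟩ := hK.exists_isMaxOn hne
    (f := fun z : E2 => (z 0).re)
    (Complex.continuous_re.comp (EuclideanSpace.proj (0 : Fin 2)).continuous).continuousOn
  have hmax : ∀ z ∈ Z ∩ hat 2 r, (z 0).re ≤ (p 0).re := fun z hz => hpmax hz
  set c0 := p 0 with hc0
  set w0 := p 1 with hw0
  have hpP : P c0 w0 = p := P_eta p
  have hr : r ≤ c0.re := hp.2.2
  have hnotcap : ∀ z ∈ Z ∩ hat 2 r, ‖z‖ < 1 := by
    intro z hz
    refine lt_of_le_of_ne hz.2.1 fun h => ?_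
    have : z ∈ Z ∩ cap 2 r := ⟨hz.1, h, hz.2.2⟩
    rw [hcap] at this
    exact this
  have hp1 : ‖P c0 w0‖ < 1 := by rw [hpP]; exact hnotcap p hp
  have hp2 : ‖c0‖ ^ 2 + ‖w0‖ ^ 2 < 1 := by
    rw [← P_norm]
    nlinarith [norm_nonneg (P c0 w0)]
  set ρ : ℝ := Real.sqrt (1 - ‖c0‖ ^ 2) with hρ
  have hρsq : ρ ^ 2 = 1 - ‖c0‖ ^ 2 := Real.sq_sqrt (by nlinarith [sq_nonneg ‖w0‖])
  have hw0ρ : ‖w0‖ < ρ := by
    refine lt_of_pow_lt_pow_left₀ 2 (Real.sqrt_nonneg _) ?_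
    rw [hρsq]; linarith
  have hρ0 : 0 ≤ ρ := Real.sqrt_nonneg _
  let γ : ℝ → ℂ := fun s => (1 - s : ℝ) • w0 + s • (ρ : ℂ)
  have hγc : Continuous γ := by fun_prop
  have hγn : ∀ s, 0 ≤ s → s < 1 → ‖γ s‖ < ρ := by
    intro s h0 h1
    calc ‖γ s‖ ≤ ‖(1 - s : ℝ) • w0‖ + ‖s • (ρ : ℂ)‖ := norm_add_le _ _
      _ = (1 - s) * ‖w0‖ + s * ρ := by
          rw [norm_smul, norm_smul, Real.norm_eq_abs, Real.norm_eq_abs, abs_of_nonneg h0,
            abs_of_pos (by linarith), Complex.norm_real, Real.norm_eq_abs, abs_of_nonneg hρ0]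
      _ < ρ := by nlinarith
  have hPn : ∀ s, 0 ≤ s → s < 1 → ‖P c0 (γ s)‖ < 1 := by
    intro s h0 h1
    have h2 := hγn s h0 h1
    have h3 : ‖P c0 (γ s)‖ ^ 2 < 1 := by
      rw [P_norm]
      have : ‖γ s‖ ^ 2 < ρ ^ 2 := by
        exact pow_lt_pow_left₀ h2 (norm_nonneg _) two_ne_zero
      rw [hρsq] at this
      linarith
    nlinarith [norm_nonneg (P c0 (γ s))]
  have hPc : Continuous (fun s => P c0 (γ s)) :=
    P_continuous.comp (continuous_const.prodMk hγc)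
  have hIcc : Icc (0 : ℝ) 1 ⊆ {s | P c0 (γ s) ∈ Z ∩ hat 2 r} := by
    refine IsClosed.Icc_subset_of_forall_exists_gt ?_ ?_ ?_
    · exact (hcl.preimage hPc).inter isClosed_Icc
    · show P c0 (γ 0) ∈ Z ∩ hat 2 r
      have : γ 0 = w0 := by simp [γ]
      rw [this, hpP]; exact hp
    · rintro s ⟨hs, hs0, hs1⟩ y hy
      have hev := local_open r Z c0 hr hmax hloc (γ s) (hPn s hs0 hs1) hs.1
      have hev2 : ∀ᶠ s' in 𝓝 s, P c0 (γ s') ∈ Z := hγc.continuousAt hev
      have hev3 : ∀ᶠ s' in 𝓝 s, ‖P c0 (γ s')‖ < 1 :=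
        hPc.norm.continuousAt (gt_mem_nhds (hPn s hs0 hs1))
      have hev4 : ∀ᶠ s' in 𝓝[>] s, P c0 (γ s') ∈ Z ∧ ‖P c0 (γ s')‖ < 1 :=
        nhdsWithin_le_nhds (hev2.and hev3)
      have hev5 : ∀ᶠ s' in 𝓝[>] s, s' ∈ Ioc s y := Ioc_mem_nhdsGT hy
      obtain ⟨s', h1, h2⟩ := (hev4.and hev5).exists
      exact ⟨s', ⟨h1.1, h1.2.le, hr⟩, h2⟩
  have hone : P c0 (γ 1) ∈ Z ∩ hat 2 r := hIcc ⟨zero_le_one, le_rfl⟩
  have hγ1 : γ 1 = (ρ : ℂ) := by simp [γ]
  have h5 := hnotcap _ hone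
  have h6 : ‖P c0 (γ 1)‖ ^ 2 = 1 := by
    rw [P_norm, hγ1, Complex.norm_real, Real.norm_eq_abs, abs_of_nonneg hρ0, hρsq]; ring
  nlinarith [norm_nonneg (P c0 (γ 1))]

end Pool.Agent.Q110.Nuc
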