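import Mathlib
import Pool.Agent.Q110.Nuc.Cut

/-!
# Levi forms and the gluing function
-/

set_option autoImplicit false

open Set Filter Topology
open scoped ContDiff Manifold

namespace Pool.Agent.Q110.Nuc

/-- the Levi form (complex Hessian) of `g` at `z`, evaluated at the vector `v`: a quarter of the
Laplacian at `0` of `t ↦ g (z + t v)`, `t ∈ ℂ` -/
noncomputable def levi {V : Type*} [NormedAddCommGroup V] [NormedSpace ℂ V] (g : V → ℝ) (z v : V) :
    ℝ :=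
  (deriv (deriv fun s : ℝ => g (z + (s : ℂ) • v)) 0 +
    deriv (deriv fun s : ℝ => g (z + ((s : ℂ) * Complex.I) • v)) 0) / 4

theorem levi_congr {V : Type*} [NormedAddCommGroup V] [NormedSpace ℂ V] {g g' : V → ℝ} {z : V}
    (h : g =ᶠ[𝓝 z] g') (v : V) : levi g z v = levi g' z v := by
  have h1 : (fun s : ℝ => g (z + (s : ℂ) • v)) =ᶠ[𝓝 0] fun s : ℝ => g' (z + (s : ℂ) • v) := by
    have hc : Tendsto (fun s : ℝ => z + (s : ℂ) • v) (𝓝 0) (𝓝 z) := by
      have : Continuous (fun s : ℝ => z + (s : ℂ) • v) := by fun_prop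
      have h2 := this.tendsto 0
      simpa using h2
    exact hc.eventually h
  have h2 : (fun s : ℝ => g (z + ((s : ℂ) * Complex.I) • v)) =ᶠ[𝓝 0]
      fun s : ℝ => g' (z + ((s : ℂ) * Complex.I) • v) := by
    have hc : Tendsto (fun s : ℝ => z + ((s : ℂ) * Complex.I) • v) (𝓝 0) (𝓝 z) := by
      have : Continuous (fun s : ℝ => z + ((s : ℂ) * Complex.I) • v) := by fun_prop
      have h2 := this.tendsto 0
      simpa using h2
    exact hc.eventually h
  unfold levi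
  rw [h1.deriv.deriv_eq, h2.deriv.deriv_eq]

/-- first primitive -/
noncomputable def tA (t : ℝ) : ℝ := ∫ s in (0 : ℝ)..t, expNegInvGlue s

/-- second primitive -/
noncomputable def tB (t : ℝ) : ℝ := ∫ s in (0 : ℝ)..t, tA s

theorem glue_cont : Continuous expNegInvGlue := (expNegInvGlue.contDiff (n := 0)).continuous

theorem tA_deriv (t : ℝ) : HasDerivAt tA (expNegInvGlue t) t :=
  intervalIntegral.integral_hasDerivAt_right (glue_cont.intervalIntegrable _ _)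
    (glue_cont.stronglyMeasurableAtFilter _ _) glue_cont.continuousAt

theorem tA_cont : Continuous tA :=
  continuous_iff_continuousAt.2 fun t => (tA_deriv t).continuousAt

theorem tB_deriv (t : ℝ) : HasDerivAt tB (tA t) t :=
  intervalIntegral.integral_hasDerivAt_right (tA_cont.intervalIntegrable _ _)
    (tA_cont.stronglyMeasurableAtFilter _ _) tA_cont.continuousAt

theorem tA_smooth : ContDiff ℝ ∞ tA := by
  rw [contDiff_infty_iff_deriv]
  refine ⟨fun t => (tA_deriv t).differentiableAt, ?_⟩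
  rw [show deriv tA = expNegInvGlue from funext fun t => (tA_deriv t).deriv]
  exact expNegInvGlue.contDiff

theorem tB_smooth : ContDiff ℝ ∞ tB := by
  rw [contDiff_infty_iff_deriv]
  refine ⟨fun t => (tB_deriv t).differentiableAt, ?_⟩
  rw [show deriv tB = tA from funext fun t => (tB_deriv t).deriv]
  exact tA_smooth

theorem tA_zero {t : ℝ} (ht : t ≤ 0) : tA t = 0 := by
  unfold tA
  rw [intervalIntegral.integral_symm, intervalIntegral.integral_congr (g := fun _ => (0 : ℝ))]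
  · simp
  · intro s hs
    rw [uIcc_of_le ht] at hs
    exact expNegInvGlue.zero_of_nonpos hs.2

theorem tB_zero {t : ℝ} (ht : t ≤ 0) : tB t = 0 := by
  unfold tB
  rw [intervalIntegral.integral_symm, intervalIntegral.integral_congr (g := fun _ => (0 : ℝ))]
  · simp
  · intro s hs
    rw [uIcc_of_le ht] at hs
    exact tA_zero hs.2

theorem tA_nonneg (t : ℝ) : 0 ≤ tA t := by
  rcases le_total t 0 with h | h
  · rw [tA_zero h]
  · exact intervalIntegral.integral_nonneg h fun s _ => expNegInvGlue.nonneg s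

theorem tA_pos {t : ℝ} (ht : 0 < t) : 0 < tA t :=
  intervalIntegral.intervalIntegral_pos_of_pos_on (glue_cont.intervalIntegrable _ _)
    (fun s hs => expNegInvGlue.pos_of_pos hs.1) ht

theorem glue_le_one (t : ℝ) : expNegInvGlue t ≤ 1 := by
  rcases le_or_gt t 0 with h | h
  · rw [expNegInvGlue.zero_of_nonpos h]; exact zero_le_one
  · unfold expNegInvGlue
    rw [if_neg (not_le.2 h)]
    refine Real.exp_le_one_iff.2 ?_
    have := inv_pos.2 h
    linarith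

theorem tA_le_one {t : ℝ} (ht : t ≤ 1) : tA t ≤ 1 := by
  rcases le_total t 0 with h | h
  · rw [tA_zero h]; exact zero_le_one
  · have h1 : tA t ≤ ∫ _s in (0 : ℝ)..t, (1 : ℝ) :=
      intervalIntegral.integral_mono_on h (glue_cont.intervalIntegrable _ _)
        intervalIntegrable_const (fun s _ => glue_le_one s)
    rw [intervalIntegral.integral_const, smul_eq_mul, mul_one, sub_zero] at h1
    linarith

/-- the second derivative along a line -/
theorem second_deriv (a0 a1 a2 q0 q1 q2 : ℝ) :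
    deriv (deriv fun t : ℝ => (a0 + a1 * t + a2 * t ^ 2) + tB (q0 + q1 * t + q2 * t ^ 2)) 0 =
      2 * a2 + expNegInvGlue q0 * q1 ^ 2 + tA q0 * (2 * q2) := by
  have hp : ∀ c0 c1 c2 t : ℝ, HasDerivAt (fun t : ℝ => c0 + c1 * t + c2 * t ^ 2)
      (c1 + 2 * c2 * t) t := by
    intro c0 c1 c2 t
    have h1 := (((hasDerivAt_id t).const_mul c1).const_add c0).add
      ((hasDerivAt_pow 2 t).const_mul c2)
    have h2 : c1 * 1 + c2 * (((2 : ℕ) : ℝ) * t ^ (2 - 1)) = c1 + 2 * c2 * t := by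
      norm_num
      ring
    rw [h2] at h1
    exact h1
  have h1 : (deriv fun t : ℝ => (a0 + a1 * t + a2 * t ^ 2) + tB (q0 + q1 * t + q2 * t ^ 2)) =
      fun t => (a1 + 2 * a2 * t + 0 * t ^ 2) + tA (q0 + q1 * t + q2 * t ^ 2) * (q1 + 2 * q2 * t + 0 * t ^ 2) := by
    funext t
    have h2 := (hp a0 a1 a2 t).add ((tB_deriv (q0 + q1 * t + q2 * t ^ 2)).comp t (hp q0 q1 q2 t))
    have h3 := h2.deriv
    rw [zero_mul, add_zero, add_zero]
    exact h3
  rw [h1]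
  have h4 := (hp a1 (2 * a2) 0 0).add
    (((tA_deriv (q0 + q1 * 0 + q2 * 0 ^ 2)).comp 0 (hp q0 q1 q2 0)).mul (hp q1 (2 * q2) 0 0))
  have h5 := h4.deriv
  refine Eq.trans ?_ (h5.trans ?_)
  · rfl
  · simp only [Function.comp_apply]
    ring_nf

/-- the model function `|ζ|² + θ(|w|² + 1/8 - |ζ|²/2)` -/
noncomputable def mod (z : ℂ × ℂ) : ℝ := ‖z.1‖ ^ 2 + tB (‖z.2‖ ^ 2 + 1 / 8 - ‖z.1‖ ^ 2 / 2)

theorem norm_line (z a : ℂ) (s : ℝ) :
    ‖z + (s : ℂ) * a‖ ^ 2 = ‖z‖ ^ 2 + (2 * (z.re * a.re + z.im * a.im)) * s + ‖a‖ ^ 2 * s ^ 2 := by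
  rw [← Complex.normSq_eq_norm_sq, ← Complex.normSq_eq_norm_sq, ← Complex.normSq_eq_norm_sq,
    Complex.normSq_apply, Complex.normSq_apply, Complex.normSq_apply]
  simp
  ring

theorem levi_mod (z v : ℂ × ℂ) :
    4 * levi mod z v ≥ (4 - 2 * tA (‖z.2‖ ^ 2 + 1 / 8 - ‖z.1‖ ^ 2 / 2)) * ‖v.1‖ ^ 2 +
      4 * tA (‖z.2‖ ^ 2 + 1 / 8 - ‖z.1‖ ^ 2 / 2) * ‖v.2‖ ^ 2 := by
  have key : ∀ a b : ℂ, deriv (deriv fun s : ℝ => mod (z.1 + (s : ℂ) * a, z.2 + (s : ℂ) * b)) 0 ≥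
      2 * ‖a‖ ^ 2 + tA (‖z.2‖ ^ 2 + 1 / 8 - ‖z.1‖ ^ 2 / 2) * (2 * (‖b‖ ^ 2 - ‖a‖ ^ 2 / 2)) := by
    intro a b
    have h1 : (fun s : ℝ => mod (z.1 + (s : ℂ) * a, z.2 + (s : ℂ) * b)) = fun s : ℝ =>
        (‖z.1‖ ^ 2 + (2 * (z.1.re * a.re + z.1.im * a.im)) * s + ‖a‖ ^ 2 * s ^ 2) +
        tB ((‖z.2‖ ^ 2 + 1 / 8 - ‖z.1‖ ^ 2 / 2) +
          (2 * (z.2.re * b.re + z.2.im * b.im) - (z.1.re * a.re + z.1.im * a.im)) * s +
          (‖b‖ ^ 2 - ‖a‖ ^ 2 / 2) * s ^ 2) := by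
      funext s
      unfold mod
      simp only [norm_line]
      congr 2
      ring
    rw [h1, second_deriv]
    have h2 := mul_nonneg (expNegInvGlue.nonneg (‖z.2‖ ^ 2 + 1 / 8 - ‖z.1‖ ^ 2 / 2))
      (sq_nonneg (2 * (z.2.re * b.re + z.2.im * b.im) - (z.1.re * a.re + z.1.im * a.im)))
    linarith
  have h1 := key v.1 v.2
  have h2 := key (Complex.I * v.1) (Complex.I * v.2)
  have e1 : (fun s : ℝ => mod (z + (s : ℂ) • v)) =
      fun s : ℝ => mod (z.1 + (s : ℂ) * v.1, z.2 + (s : ℂ) * v.2) := rfl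
  have e2 : (fun s : ℝ => mod (z + ((s : ℂ) * Complex.I) • v)) =
      fun s : ℝ => mod (z.1 + (s : ℂ) * (Complex.I * v.1), z.2 + (s : ℂ) * (Complex.I * v.2)) := by
    funext s
    rw [← mul_assoc, ← mul_assoc]; rfl
  have h3 : 4 * levi mod z v = deriv (deriv fun s : ℝ => mod (z.1 + (s : ℂ) * v.1, z.2 + (s : ℂ) * v.2)) 0 +
      deriv (deriv fun s : ℝ =>
        mod (z.1 + (s : ℂ) * (Complex.I * v.1), z.2 + (s : ℂ) * (Complex.I * v.2))) 0 := by
    unfold levi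
    rw [e1, e2]
    ring
  rw [h3]
  rw [norm_mul, norm_mul, Complex.norm_I, one_mul, one_mul] at h2
  linarith

/-- the Levi form of `|ζ|²` -/
theorem levi_sq (z v : ℂ × ℂ) : 0 ≤ levi (fun z : ℂ × ℂ => ‖z.1‖ ^ 2) z v := by
  have key : ∀ a : ℂ, deriv (deriv fun s : ℝ => ‖z.1 + (s : ℂ) * a‖ ^ 2) 0 ≥ 0 := by
    intro a
    have h1 : (fun s : ℝ => ‖z.1 + (s : ℂ) * a‖ ^ 2) = fun s : ℝ =>
        (‖z.1‖ ^ 2 + (2 * (z.1.re * a.re + z.1.im * a.im)) * s + ‖a‖ ^ 2 * s ^ 2) +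
        tB ((-1) + 0 * s + 0 * s ^ 2) := by
      funext s
      rw [norm_line, tB_zero (by linarith [mul_zero (0 : ℝ)]), add_zero]
    rw [h1, second_deriv, tA_zero (by norm_num), expNegInvGlue.zero_of_nonpos (by norm_num)]
    have := sq_nonneg ‖a‖
    linarith
  have h1 := key v.1
  have h2 := key (Complex.I * v.1)
  unfold levi
  have e1 : (fun s : ℝ => ‖(z + (s : ℂ) • v).1‖ ^ 2) = fun s : ℝ => ‖z.1 + (s : ℂ) * v.1‖ ^ 2 := rfl
  have e2 : (fun s : ℝ => ‖(z + ((s : ℂ) * Complex.I) • v).1‖ ^ 2) =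
      fun s : ℝ => ‖z.1 + (s : ℂ) * (Complex.I * v.1)‖ ^ 2 := by
    funext s
    rw [← mul_assoc]; rfl
  rw [e1, e2]
  linarith

theorem mod_smooth : ContDiff ℝ ∞ mod := by
  unfold mod
  refine ContDiff.add (contDiff_fst.norm_sq ℝ) (tB_smooth.comp ?_)
  exact ((contDiff_snd.norm_sq ℝ).add contDiff_const).sub ((contDiff_fst.norm_sq ℝ).div_const 2)

end Pool.Agent.Q110.Nuc
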